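import Mathlib
import Pool.Agent.Q216.HTEnds

/-!
# Nodal domains on Hecke trees and the Ramanujan conjecture at a prime

Let `φ` be a real valued spherical cusp form on `PGL₂` over `ℚ` (a Hecke-Maass cusp form of level
one), with Satake parameters `α, α⁻¹` at the prime `p`, and `θ = |log_p |α||`.  For a point `z` of
the upper half plane the `p`-Hecke orbit of `z` is parametrised by the vertices of the
Bruhat-Tits tree of `PGL₂(ℚ_p)`.  If `θ > 0`, that is, if the Ramanujan conjecture fails at `p`,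
then every nodal domain of `φ` on every such tree is infinite, grows at least like
`p^((1/2 + θ) n)`, and its limit set in `ℚ_p` has Hausdorff dimension at least `1/2 + θ`.
In particular a single nodal domain with few vertices proves the Ramanujan conjecture at `p`.
-/

set_option autoImplicit false

open scoped BigOperators ENNReal
open MeasureTheory

namespace Pool.Agent.Results.MP_fa98d2_nt.HeckeTreeNodalDomains

open Pool.Agent.Q216.HT

/-- The properties of a (real valued) spherical cusp form `φ` on `PGL₂` over `ℚ` at the prime `p`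
which are used: `φ` is bounded by `M` on the upper half plane, it is invariant under `z ↦ z + 1`,
and it is an eigenfunction of the Hecke operator at `p`, with eigenvalue given by the Satake
parameters `α`, `α⁻¹`. -/
structure HeckeForm (p : ℕ) (φ : ℂ → ℝ) (α : ℂ) (M : ℝ) : Prop where
  bounded : ∀ z : ℂ, 0 < z.im → |φ z| ≤ M
  periodic : ∀ z : ℂ, 0 < z.im → φ (z + 1) = φ z
  satake_ne_zero : α ≠ 0
  hecke : ∀ z : ℂ, 0 < z.im →
    ((φ (p * z) + ∑ b : Fin p, φ ((z + (b : ℕ)) / p) : ℝ) : ℂ) =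
      (Real.sqrt p : ℂ) * (α + α⁻¹) * (φ z : ℂ)

/-- The function on the tree which belongs to `φ` and the point `z`: at the vertex `(k, u)` its
value is `φ (z / p^k + u)`, multiplied by `(-1)^k` if the real part of `α` is negative. -/
noncomputable def treeFun {p : ℕ} (φ : ℂ → ℝ) (α z : ℂ) (v : Vert p) : ℝ :=
  (if 0 ≤ α.re then 1 else -1) ^ v.k * φ (z / (p : ℂ) ^ v.k + v.u)

/-- The nodal domain of the vertex `v₀`: the vertices which can be reached from `v₀` by a path of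
the tree on which the function has the same sign as at `v₀`. -/
def nodalDomain {p : ℕ} (φ : ℂ → ℝ) (α z : ℂ) (v₀ : Vert p) : Set (Vert p) :=
  comp {v | 0 < treeFun φ α z v₀ * treeFun φ α z v} v₀

section

variable {p : ℕ} [hp : Fact p.Prime] {φ : ℂ → ℝ} {α : ℂ} {M : ℝ}

lemma im_pos {z : ℂ} (hz : 0 < z.im) (v : Vert p) : 0 < (z / (p : ℂ) ^ v.k + v.u).im := by
  have h1 : (z / (p : ℂ) ^ v.k + v.u).im = z.im / (p : ℝ) ^ v.k := by
    have e : (p : ℂ) ^ v.k = (((p : ℝ) ^ v.k : ℝ) : ℂ) := by push_cast; rfl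
    have e2 : ((v.u : ℚ) : ℂ) = (((v.u : ℚ) : ℝ) : ℂ) := by push_cast; rfl
    rw [Complex.add_im, e, Complex.div_ofReal_im, e2, Complex.ofReal_im, add_zero]
  rw [h1]
  exact div_pos hz (zpow_pos ppos _)

omit hp in
lemma per_int (h : HeckeForm p φ α M) {z : ℂ} (hz : 0 < z.im) (n : ℤ) : φ (z + n) = φ z := by
  induction n using Int.induction_on with
  | zero => simp
  | succ n ih =>
    have := h.periodic (z + ((n : ℤ) : ℂ)) (by simpa using hz)
    rw [ih] at this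
    rw [← this]; congr 1; push_cast; ring
  | pred n ih =>
    have := h.periodic (z + ((-(n : ℤ) - 1 : ℤ) : ℂ)) (by simpa using hz)
    rw [← this, ← ih]; congr 1; push_cast; ring

lemma sgn_mul : (if 0 ≤ α.re then (1 : ℝ) else -1) * (if 0 ≤ α.re then (1 : ℝ) else -1) = 1 := by
  split_ifs <;> norm_num

lemma sgn_ne : (if 0 ≤ α.re then (1 : ℝ) else -1) ≠ 0 := by
  split_ifs <;> norm_num

/-- The eigenvalue equation on the tree. -/
lemma nb_treeFun (h : HeckeForm p φ α M) {z : ℂ} (hz : 0 < z.im) (v : Vert p) :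
    ((nb (treeFun φ α z) v : ℝ) : ℂ) =
      (if 0 ≤ α.re then 1 else -1) * ((Real.sqrt p : ℂ) * (α + α⁻¹)) * (treeFun φ α z v : ℂ) := by
  have hp0 : (p : ℂ) ≠ 0 := by exact_mod_cast hp.out.ne_zero
  set w : ℂ := z / (p : ℂ) ^ v.k + v.u with hw
  have hwi : 0 < w.im := im_pos hz v
  set e : ℝ := if 0 ≤ α.re then (1 : ℝ) else -1 with he
  have hee : e * e = 1 := sgn_mul
  have he0 : e ≠ 0 := sgn_ne
  have h1 : treeFun φ α z v.parent = e * e ^ v.k * φ (p * w) := by
    unfold treeFun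
    rw [← he, parent_k, zpow_sub_one₀ he0]
    have e1 : z / (p : ℂ) ^ (v.k - 1) + ((v.parent.u : ℚ) : ℂ) =
        p * w + ((-⌊(p : ℚ) * v.u⌋ : ℤ) : ℂ) := by
      have e2 : v.parent.u = (p : ℚ) * v.u - (⌊(p : ℚ) * v.u⌋ : ℤ) := rfl
      rw [e2, zpow_sub_one₀ hp0, hw]
      push_cast
      field_simp
      ring
    rw [e1, per_int h]
    · have : e⁻¹ = e := inv_eq_of_mul_eq_one_left hee
      rw [this]; ring
    · have : ((p : ℂ) * w).im = p * w.im := by simp
      rw [this]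
      exact mul_pos ppos hwi
  have h2 : ∀ b : Fin p, treeFun φ α z (v.child b) = e * e ^ v.k * φ ((w + (b : ℕ)) / p) := by
    intro b
    unfold treeFun
    rw [← he, child_k, zpow_add_one₀ he0]
    have e1 : z / (p : ℂ) ^ (v.k + 1) + (((v.child b).u : ℚ) : ℂ) = (w + (b : ℕ)) / p := by
      have e2 : (v.child b).u = (v.u + (b : ℕ)) / p := rfl
      rw [e2, zpow_add_one₀ hp0, hw]
      push_cast
      field_simp
      ring
    rw [e1]; ring
  have h3 : nb (treeFun φ α z) v = e * e ^ v.k * (φ (p * w) + ∑ b : Fin p, φ ((w + (b : ℕ)) / p)) := by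
    unfold nb
    rw [h1, Finset.sum_congr rfl (fun b _ => h2 b), ← Finset.mul_sum]; ring
  have h4 := h.hecke w hwi
  have h5 : treeFun φ α z v = e ^ v.k * φ w := rfl
  have he' : (if 0 ≤ α.re then (1 : ℂ) else -1) = (e : ℂ) := by
    rw [he]; split_ifs <;> simp
  rw [h3, Complex.ofReal_mul, h4, h5, he']
  push_cast
  ring

/-- If the Satake parameter is not unitary, the eigenvalue (with its sign removed) is
`p^(1/2 + θ) + p^(1/2 - θ)`. -/
lemma eigenvalue (h : HeckeForm p φ α M) {z : ℂ} (hz : 0 < z.im) (hφ : φ z ≠ 0)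
    (hθ : 0 < |Real.logb p ‖α‖|) :
    (if 0 ≤ α.re then (1 : ℂ) else -1) * ((Real.sqrt p : ℂ) * (α + α⁻¹)) =
      (((p : ℝ) ^ (1 / 2 + |Real.logb p ‖α‖|) + (p : ℝ) ^ (1 - (1 / 2 + |Real.logb p ‖α‖|)) : ℝ) : ℂ)
      := by
  have hpp := ppos (p := p)
  have hp1 := pone (p := p)
  have hα : 0 < ‖α‖ := norm_pos_iff.2 h.satake_ne_zero
  have h1 : ‖α‖ ≠ 1 := by
    intro h1
    rw [h1, Real.logb_one, abs_zero] at hθ
    exact lt_irrefl _ hθ
  have hsq : (0 : ℝ) < Real.sqrt p := Real.sqrt_pos.2 hpp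
  have him : α.im = 0 := by
    have h2 := congrArg Complex.im (h.hecke z hz)
    have h3 : ((Real.sqrt p : ℂ) * (α + α⁻¹) * (φ z : ℂ)).im =
        Real.sqrt p * (α.im * (1 - 1 / ‖α‖ ^ 2)) * φ z := by
      rw [Complex.im_mul_ofReal, Complex.im_ofReal_mul, Complex.add_im, Complex.inv_im,
        Complex.normSq_eq_norm_sq]
      ring
    rw [Complex.ofReal_im, h3] at h2
    have h4 : (1 - 1 / ‖α‖ ^ 2) ≠ 0 := by
      intro h5
      apply h1
      have h6 : ‖α‖ ^ 2 = 1 := by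
        field_simp at h5
        linarith
      nlinarith
    have h5 := mul_ne_zero hsq.ne' hφ
    by_contra hne
    have h6 := mul_ne_zero (mul_ne_zero hsq.ne' (mul_ne_zero hne h4)) hφ
    exact h6 h2.symm
  have hX : ∀ t : ℝ, (p : ℝ) ^ (1 / 2 + |t|) + (p : ℝ) ^ (1 - (1 / 2 + |t|)) =
      Real.sqrt p * ((p : ℝ) ^ t + ((p : ℝ) ^ t)⁻¹) := by
    intro t
    rw [Real.sqrt_eq_rpow, mul_add, ← Real.rpow_neg hpp.le, ← Real.rpow_add hpp,
      ← Real.rpow_add hpp]
    rcases abs_cases t with ⟨h2, -⟩ | ⟨h2, -⟩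
    · rw [h2]; congr 2; ring
    · rw [h2, add_comm]; congr 2; ring
  rw [hX, Real.rpow_logb hpp hp1.ne' hα]
  obtain ⟨a, rfl⟩ : ∃ a : ℝ, α = (a : ℂ) := ⟨α.re, Complex.ext (by simp) (by simp [him])⟩
  rw [Complex.norm_real, Real.norm_eq_abs, Complex.ofReal_re]
  have ha : a ≠ 0 := by
    rintro rfl
    exact h.satake_ne_zero (by simp)
  split_ifs with hs
  · rw [abs_of_nonneg hs]; push_cast; ring
  · rw [abs_of_neg (not_le.1 hs)]
    push_cast
    rw [inv_neg]; ring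

/-- the eigenvalue equation in real form -/
lemma nb_treeFun' (h : HeckeForm p φ α M) {z : ℂ} (hz : 0 < z.im) {v₀ : Vert p}
    (h0 : treeFun φ α z v₀ ≠ 0) (hθ : 0 < |Real.logb p ‖α‖|) (v : Vert p) :
    nb (treeFun φ α z) v = ((p : ℝ) ^ (1 / 2 + |Real.logb p ‖α‖|) +
      (p : ℝ) ^ (1 - (1 / 2 + |Real.logb p ‖α‖|))) * treeFun φ α z v := by
  have h1 := nb_treeFun h hz v
  have h2 : φ (z / (p : ℂ) ^ v₀.k + v₀.u) ≠ 0 := by
    intro h2
    exact h0 (by unfold treeFun; rw [h2, mul_zero])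
  rw [eigenvalue h (im_pos hz v₀) h2 hθ] at h1
  exact_mod_cast h1

lemma abs_treeFun_le (h : HeckeForm p φ α M) {z : ℂ} (hz : 0 < z.im) (v : Vert p) :
    |treeFun φ α z v| ≤ M := by
  unfold treeFun
  have h1 := h.bounded _ (im_pos hz v)
  rw [abs_mul, abs_zpow]
  have : |(if 0 ≤ α.re then (1 : ℝ) else -1)| = 1 := by split_ifs <;> simp
  rw [this, one_zpow, one_mul]
  exact h1

/-- The subsolution attached to a nodal domain. -/
noncomputable def sub (φ : ℂ → ℝ) (α z : ℂ) (v₀ : Vert p) (v : Vert p) : ℝ :=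
  open Classical in if v ∈ nodalDomain φ α z v₀ then |treeFun φ α z v| else 0

omit hp in
lemma sub_nonneg (z : ℂ) (v₀ v : Vert p) : 0 ≤ sub φ α z v₀ v := by
  unfold sub
  split_ifs
  · exact abs_nonneg _
  · exact le_rfl

lemma sub_sub (h : HeckeForm p φ α M) {z : ℂ} (hz : 0 < z.im) {v₀ : Vert p}
    (h0 : treeFun φ α z v₀ ≠ 0) (hθ : 0 < |Real.logb p ‖α‖|) (y : Vert p) :
    ((p : ℝ) ^ (1 / 2 + |Real.logb p ‖α‖|) + (p : ℝ) ^ (1 - (1 / 2 + |Real.logb p ‖α‖|))) *
      sub φ α z v₀ y ≤ nb (sub φ α z v₀) y := by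
  classical
  by_cases hy : y ∈ nodalDomain φ α z v₀
  · -- the sign at v₀
    obtain ⟨e, he, hev⟩ : ∃ e : ℝ, |e| = 1 ∧ 0 < e * treeFun φ α z v₀ := by
      rcases lt_or_gt_of_ne h0 with h1 | h1
      · exact ⟨-1, by simp, by linarith⟩
      · exact ⟨1, by simp, by linarith⟩
    have hpos : ∀ x : Vert p, 0 < treeFun φ α z v₀ * treeFun φ α z x ↔ 0 < e * treeFun φ α z x := by
      intro x
      have hee : e * e = 1 := by
        rw [← abs_mul_abs_self, he]; norm_num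
      have e1 : treeFun φ α z v₀ * treeFun φ α z x =
          (e * treeFun φ α z v₀) * (e * treeFun φ α z x) := by
        calc _ = (e * e) * (treeFun φ α z v₀ * treeFun φ α z x) := by rw [hee, one_mul]
          _ = _ := by ring
      rw [e1]
      exact mul_pos_iff_of_pos_left hev
    have hsub : ∀ x ∈ nodalDomain φ α z v₀, sub φ α z v₀ x = e * treeFun φ α z x := by
      intro x hx
      unfold sub
      rw [if_pos hx]
      have := (hpos x).1 (comp_subset hx)
      rw [← abs_of_pos this, abs_mul, he, one_mul]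
    have hnb : ∀ x, (tree p).Adj y x → e * treeFun φ α z x ≤ sub φ α z v₀ x := by
      intro x hx
      by_cases hxD : x ∈ nodalDomain φ α z v₀
      · rw [hsub x hxD]
      · have h1 : ¬ 0 < e * treeFun φ α z x := by
          intro h1
          exact hxD (comp_adj hy hx ((hpos x).2 h1))
        have := sub_nonneg (φ := φ) (α := α) z v₀ x
        linarith
    rw [hsub y hy]
    calc _ = e * nb (treeFun φ α z) y := by rw [nb_treeFun' h hz h0 hθ]; ring
      _ = nb (fun x => e * treeFun φ α z x) y := by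
          simp only [nb, mul_add, Finset.mul_sum]
      _ ≤ _ := nb_mono y hnb
  · have h1 : sub φ α z v₀ y = 0 := by unfold sub; rw [if_neg hy]
    rw [h1, mul_zero]
    exact add_nonneg (sub_nonneg _ _ _) (Finset.sum_nonneg fun b _ => sub_nonneg _ _ _)

omit hp in
lemma self_mem {z : ℂ} {v₀ : Vert p} (h0 : treeFun φ α z v₀ ≠ 0) :
    v₀ ∈ nodalDomain φ α z v₀ :=
  comp_self (mul_self_pos.2 h0)

end

theorem result (p : ℕ) [Fact p.Prime] [MeasurableSpace ℚ_[p]] [BorelSpace ℚ_[p]]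
    (φ : ℂ → ℝ) (α : ℂ) (M : ℝ) (hφ : HeckeForm p φ α M) (z : ℂ) (hz : 0 < z.im)
    (v₀ : Vert p) (h0 : treeFun φ α z v₀ ≠ 0) :
    -- `θ` is the exponent `θ_{φ,p}` of the problem
    let θ : ℝ := |Real.logb p ‖α‖|
    let D : Set (Vert p) := nodalDomain φ α z v₀
    let f : Vert p → ℝ := fun v => |treeFun φ α z v|
    (0 < θ →
      -- cutset inequality
      (∀ P : Set (Vert p),
        (∀ r : ℕ → Vert p, IsRay r → r 0 = v₀ → (∀ n, r n ∈ D) → ∃ n, r n ∈ P) →
        ∃ T : Finset (Vert p), (T : Set (Vert p)) ⊆ P ∩ D ∧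
          f v₀ ≤ ∑ v ∈ T, f v * (p : ℝ) ^ (-(1 / 2 + θ) * (tree p).dist v₀ v)) ∧
      -- growth
      (∀ (n : ℕ) (T : Finset (Vert p)), (∀ v, v ∈ T ↔ v ∈ D ∧ (tree p).dist v₀ v = n) →
        (p : ℝ) ^ ((1 / 2 + θ) * n) * f v₀ ≤ ∑ v ∈ T, f v ∧
        (p : ℝ) ^ ((1 / 2 + θ) * n) * (f v₀ / M) ≤ T.card) ∧
      -- Hausdorff measure and dimension of the limit set in `ℚ_p`
      ENNReal.ofReal (f v₀ / M * (p : ℝ) ^ (-(1 / 2 + θ) * v₀.k)) ≤ μH[1 / 2 + θ] (limitSet D) ∧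
      0 < μH[1 / 2 + θ] (limitSet D) ∧
      ENNReal.ofReal (1 / 2 + θ) ≤ dimH (limitSet D)) ∧
    -- a finite certificate for the Ramanujan conjecture at `p`
    (∀ (n : ℕ) (T : Finset (Vert p)), 1 ≤ n →
      (∀ v, v ∈ T ↔ v ∈ D ∧ (tree p).dist v₀ v = n) →
      (T.card : ℝ) ≤ (p : ℝ) ^ ((n : ℝ) / 2) * (f v₀ / M) → θ = 0) := by
  intro θ D f
  have hpp := ppos (p := p)
  have hp1 := pone (p := p)
  have hf0 : 0 < f v₀ := abs_pos.2 h0
  have hfM : ∀ v, f v ≤ M := fun v => abs_treeFun_le hφ hz v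
  have hM : 0 < M := hf0.trans_le (hfM v₀)
  have hsubD : ∀ v ∈ D, sub φ α z v₀ v = f v := fun v hv => by
    unfold sub; rw [if_pos hv]
  have hsub0 : ∀ v, v ∉ D → sub φ α z v₀ v = 0 := fun v hv => by
    unfold sub; rw [if_neg hv]
  have hv₀ : v₀ ∈ D := self_mem h0
  have hgrow : 0 < θ → ∀ (n : ℕ) (T : Finset (Vert p)),
      (∀ v, v ∈ T ↔ v ∈ D ∧ (tree p).dist v₀ v = n) →
      (p : ℝ) ^ ((1 / 2 + θ) * n) * f v₀ ≤ ∑ v ∈ T, f v ∧
        (p : ℝ) ^ ((1 / 2 + θ) * n) * (f v₀ / M) ≤ T.card := by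
    intro hθ n T hT
    have h1 := growth (s := 1 / 2 + θ) (by linarith) (sub φ α z v₀) (sub_nonneg z v₀)
      (sub_sub hφ hz h0 hθ) v₀ D hsub0 hv₀ n T hT
    rw [hsubD v₀ hv₀, Finset.sum_congr rfl (fun v hv => hsubD v ((hT v).1 hv).1)] at h1
    refine ⟨h1, ?_⟩
    have h2 : ∑ v ∈ T, f v ≤ T.card * M := by
      rw [← nsmul_eq_mul]
      exact Finset.sum_le_card_nsmul _ _ _ (fun v _ => hfM v)
    rw [← mul_div_assoc, div_le_iff₀ hM]
    exact h1.trans h2
  refine ⟨fun hθ => ?_, ?_⟩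
  · have hcut : ∀ P : Set (Vert p),
        (∀ r : ℕ → Vert p, IsRay r → r 0 = v₀ → (∀ n, r n ∈ D) → ∃ n, r n ∈ P) →
        ∃ T : Finset (Vert p), (T : Set (Vert p)) ⊆ P ∩ D ∧
          f v₀ ≤ ∑ v ∈ T, f v * (p : ℝ) ^ (-(1 / 2 + θ) * (tree p).dist v₀ v) := by
      intro P hP
      obtain ⟨T, hT, h1⟩ := cut (s := 1 / 2 + θ) (by linarith) (sub φ α z v₀) (sub_nonneg z v₀)
        (sub_sub hφ hz h0 hθ) v₀ D hsub0 hv₀ P hP
      refine ⟨T, hT, ?_⟩
      rw [hsubD v₀ hv₀] at h1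
      refine h1.trans (le_of_eq (Finset.sum_congr rfl fun v hv => ?_))
      rw [hsubD v (hT hv).2, rad]
    have hmeas : ENNReal.ofReal (f v₀ / M * (p : ℝ) ^ (-(1 / 2 + θ) * v₀.k)) ≤
        μH[1 / 2 + θ] (limitSet D) := by
      apply hausdorff (by linarith) v₀ D
      intro P hP
      obtain ⟨T, hT, h1⟩ := hcut P hP
      refine ⟨T, hT, ?_⟩
      rw [div_le_iff₀ hM, Finset.sum_mul]
      refine h1.trans (Finset.sum_le_sum fun v _ => ?_)
      rw [mul_comm]
      exact mul_le_mul_of_nonneg_left (hfM v) (rad_pos _ _ _).le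
    have hpos : 0 < μH[1 / 2 + θ] (limitSet D) := by
      refine lt_of_lt_of_le (ENNReal.ofReal_pos.2 ?_) hmeas
      exact mul_pos (div_pos hf0 hM) (Real.rpow_pos_of_pos hpp _)
    refine ⟨hcut, hgrow hθ, hmeas, hpos, ?_⟩
    have e : ((Real.toNNReal (1 / 2 + θ) : NNReal) : ℝ) = 1 / 2 + θ :=
      Real.coe_toNNReal _ (by positivity)
    have := le_dimH_of_hausdorffMeasure_ne_zero (s := limitSet D)
      (d := Real.toNNReal (1 / 2 + θ)) (by rw [e]; exact hpos.ne')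
    exact this
  · intro n T hn hT hcard
    by_contra hne
    have hθ : 0 < θ := lt_of_le_of_ne (abs_nonneg _) (Ne.symm hne)
    have h1 := (hgrow hθ n T hT).2
    have h2 : (p : ℝ) ^ ((n : ℝ) / 2) < (p : ℝ) ^ ((1 / 2 + θ) * n) := by
      apply Real.rpow_lt_rpow_of_exponent_lt hp1
      have : (1 : ℝ) ≤ n := by exact_mod_cast hn
      nlinarith
    have h3 : 0 < f v₀ / M := div_pos hf0 hM
    nlinarith

end Pool.Agent.Results.MP_fa98d2_nt.HeckeTreeNodalDomains
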