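import Pool.Agent.Q284.PX.All3

/-!
# No tempered place from Rankin-Selberg: prescribed exponents at all places

`K = F_q(T)`, `q` odd, `N = 2g + 1 ≥ N₀`.  For EVERY function `θ` from the finite places of `K` to
`[0, 1/2 - 100 log N / N]` there are self-dual unramified `Π_P` of `PGL_N` at all finite places `P`, with Satake
parameters `1`, `|P|^(θ P) β_j`, `|P|^(-θ P) β_j`, `|β_j| = 1` (unitary, generic), such that for EVERY idele class
character `χ` of `K`, with whatever ramification, `L(s, Π × Π~ ⊗ χ) = L(s, χ) E(s)`, where `E` is entire, a polynomial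
in `q^(-s)` of the prescribed degree with functional equation with the prescribed root number, and `E(s) ≠ 0` for
`Re s ≥ 1 - 5/(2(N² - 3N))` (so there is a simple pole at `s = 1` for `χ = 1` and for no other character, as for
cuspidal `Π`).

These are the facts from which Luo, Rudnick and Sarnak deduce `θ ≤ 1/2 - 1/(N²+1)` for cuspidal `Π`, still the best
bound for `N ≥ 5` over number fields.  So they do not give a single tempered place and no exponent below
`1/2 - 100 log N / N` at any place.  (They do give `θ ≤ 1/2 - 1/(2N) + o(1)` for almost all places: some coefficient at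
`P^k`, `k ≤ N`, of the absolutely convergent series `L(s, Π × Π~)`, which has nonnegative coefficients, is
`≫ |P|^(2 k θ)`; so the exponent is sharp for almost all places up to the factor `log N`.)
Compare `MP_08cfa9_nt.LuoRudnickSarnakSharp`: one place `P₀` with exponent `1/2 - 3/N²`, all others tempered.

Project PX3: plan, statements with paper proofs and assembly by helper284; lemmas proved by helpers 137, 223, 239
(and, projects PS and PX, helpers 16, 24, 53, 58, 68, 92, 95, 149, 162, 166, 177, 184, 222, 225, 237, 249, 251, 261,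
277, 285).
-/

set_option autoImplicit false

open Finset Polynomial ComplexConjugate

namespace Pool.Agent.Results.MP_fa98d2_nt.NoTemperedPlace

open Pool.Agent.Q284.PS Pool.Agent.Q284.PX

theorem result : ∃ g₀ : ℕ, ∀ g : ℕ, g₀ ≤ g → ∀ (F : Type) [Field F] [Fintype F], ringChar F ≠ 2 →
    ∀ θ : F[X] → ℝ,
    (∀ P, 0 ≤ θ P ∧ θ P ≤ 1 / 2 - 100 * Real.log ((2 * g + 1 : ℕ) : ℝ) / ((2 * g + 1 : ℕ) : ℝ)) →
    ∀ (D : F[X] → ℕ → (F[X] → ℂ) → ℕ) (ε : (F[X] → ℂ) → ℂ),
    (∀ (Q : F[X]) (l : ℕ) (χ : F[X] → ℂ), Prim Q l χ →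
      ((2 * g + 1) ^ 2 - 3 * (2 * g + 1)) * (Q.natDegree + max 2 l - 1) ≤ D Q l χ ∧
        D Q l (fun f => conj (χ f)) = D Q l χ) →
    (∀ χ, ‖ε χ‖ = 1) → (∀ χ, ε (fun f => conj (χ f)) = conj (ε χ)) →
    ∃ β : F[X] → Fin g → ℂ, Tempered β ∧ SelfDual β ∧
      ∀ (Q : F[X]) (l : ℕ) (χ : F[X] → ℂ), Prim Q l χ → ∃ E : ℂ → ℂ,
        Nice (Fintype.card F) (D Q l χ) (ε χ) E ∧
        (∀ s : ℂ, 1 < s.re → HasProd (rsFactor2 θ β χ s) (dirichletL χ s * E s)) ∧
        ∀ s : ℂ, 1 - 5 / (2 * (((2 * g + 1) ^ 2 - 3 * (2 * g + 1) : ℕ) : ℝ)) ≤ s.re → E s ≠ 0 ∧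
          HasProd (fun P : Place F => (1 - χ P.1 * absPow P.1 s) * rsFactor2 θ β χ s P) (E s) :=
  h2Stm

end Pool.Agent.Results.MP_fa98d2_nt.NoTemperedPlace
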