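import Pool.Agent.H180.NS.Final

/-!
# Nodal domains at a prime where Ramanujan fails have non-amenable stabilisers

Let `φ` be a continuous, `SL₂(ℤ)`-invariant function on `ℍ`, square integrable on the modular surface,
which is an eigenfunction of the Hecke operator `T_p` with eigenvalue `L = p^(1/2) λ_p`; spherical
cusp forms for `PGL₂` are such functions, and `φ` violates the Ramanujan conjecture at `p` if and only
if `|L| > 2 √p`. As a function on the `S`-arithmetic space `ℍ × T_p`, where `T_p` is the tree of
`PGL₂(ℚ_p)`, `φ` is invariant under `SL₂(ℤ[1/p])`. We show that if `φ` violates the Ramanujan conjecture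
at `p` then the stabiliser in `SL₂(ℤ[1/p])` of every nodal domain of `φ` in `ℍ × T_p` carries a symmetric
random walk whose spectral radius is at most `2 √p / |L| < 1` (`= 1 / cosh(θ log p)` with the
`θ = θ_{φ,p}` of the problem); so it is not amenable.

The second part is the general theorem: an arbitrary countable group acting on `Z × V` for a measure
space `Z` (for instance the product of all the other places) and a countable set `V` (for instance the
vertices of a Bruhat-Tits building), a Hecke operator with nonnegative kernel on `V`, and `N` any number for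
which the operator has a positive `N`-supersolution on `V` (for a Hecke operator on a building: the
value at the trivial tempered parameter).
-/

set_option autoImplicit false

open MeasureTheory UpperHalfPlane Pool.Agent.H180.NS
open scoped NNReal ENNReal Pointwise MatrixGroups

namespace Pool.Agent.Results.MP_fa98d2_nt.NodalStabilisersAtP

/-- The nodal domain of `f` through `x`, where `f x ≠ 0`: the connected component through `x` of the
set of the points at which `f` has the same sign as at `x`, in the product of the space `Z` and the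
graph `adj` on `V`. -/
def nodal {Z V : Type} [TopologicalSpace Z] (adj : V → V → Prop) (f : Z × V → ℝ) (x : Z × V) :
    Set (Z × V) := nodalDomain adj (fun y => f x * f y) x

/-- `φ` is continuous, invariant under the modular group, square integrable on the modular surface
and an eigenfunction of the Hecke operator `T_p` with eigenvalue `L`. -/
structure IsEigenform (p : ℕ) [Fact p.Prime] (φ : ℍ → ℝ) (L : ℝ) : Prop where
  cont : Continuous φ
  inv : ∀ (γ : SL(2, ℤ)) (z : ℍ), φ (γ • z) = φ z
  sq : ∫⁻ z in ModularGroup.fd, ENNReal.ofReal (φ z ^ 2) < ⊤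
  eigen : ∀ z, hecke p φ z = L * φ z

/-- The stabiliser carries a symmetric random walk of spectral radius at most `r`, and it is not
amenable. -/
def LargeStabiliser {Γ X : Type} [Group Γ] [MulAction Γ X] (D : Set X) (r : ℝ) : Prop :=
  HasWalk (MulAction.stabilizer Γ D) r ∧ ¬ Amenable (MulAction.stabilizer Γ D)

section general

variable {Z V : Type} [MeasurableSpace Z] (Γ : Type) [Group Γ] [MulAction Γ Z] [MulAction Γ V]

/-- A nonnegative symmetric invariant kernel with finite rows and bounded row sums, which has a
positive `N`-supersolution. -/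
structure IsKernel (a : V → V → ℝ≥0) (N : ℝ) : Prop where
  finite : ∀ v, {u | a v u ≠ 0}.Finite
  symm : ∀ v u, a v u = a u v
  inv : ∀ (g : Γ) (v u : V), a (g • v) (g • u) = a v u
  bound : ∃ C : ℝ≥0, ∀ v, ∑' u, (a v u : ℝ) ≤ C
  super : ∃ w : V → ℝ, (∀ v, 0 < w v) ∧ ∀ v, ∑' u, (a v u : ℝ) * w u ≤ N * w v

/-- `F` is a fundamental set: it meets every orbit, with finite multiplicities. -/
structure IsFundamental (F : Set (Z × V)) : Prop where
  meas : ∀ v, MeasurableSet {z | (z, v) ∈ F}
  cover : ∀ x : Z × V, ∃ g : Γ, g • x ∈ F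
  finite : ∀ x : Z × V, {g : Γ | g • x ∈ F}.Finite

/-- `φ` is measurable, invariant, square integrable over `F`, and an eigenfunction of the kernel
with eigenvalue `L`. -/
structure IsEigenfunction (μ : Measure Z) (a : V → V → ℝ≥0) (F : Set (Z × V)) (φ : Z × V → ℝ)
    (L : ℝ) : Prop where
  meas : ∀ v, Measurable fun z => φ (z, v)
  inv : ∀ (g : Γ) (x : Z × V), φ (g • x) = φ x
  sq : ∑' v, ∫⁻ z in {z | (z, v) ∈ F}, ENNReal.ofReal (φ (z, v) ^ 2) ∂μ < ⊤
  eigen : ∀ z v, ∑' u, (a v u : ℝ) * φ (z, u) = L * φ (z, v)

/-- `D` is a measurable set of positive measure in `{φ > 0}`, closed under the moves of the kernel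
inside `{φ > 0}`, and translated by each element of the group onto itself or off itself. -/
structure IsNodal (μ : Measure Z) (a : V → V → ℝ≥0) (φ : Z × V → ℝ) (D : Set (Z × V)) : Prop where
  meas : ∀ v, MeasurableSet {z | (z, v) ∈ D}
  pos : ∀ x ∈ D, 0 < φ x
  closed : ∀ z v u, (z, v) ∈ D → a v u ≠ 0 → 0 < φ (z, u) → (z, u) ∈ D
  translate : ∀ g : Γ, (g • D ∩ D).Nonempty → g • D = D
  positive : ∃ v, μ {z | (z, v) ∈ D} ≠ 0

end general

/-- **Main result.** (1) Hecke eigenfunctions on the modular surface and the tree of `PGL₂(ℚ_p)`;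
(2) the general theorem. -/
theorem result :
    (∀ (p : ℕ) [Fact p.Prime] (φ : ℍ → ℝ) (L : ℝ), IsEigenform p φ L → 2 * √p < |L| →
      ∀ x : ℍ × Vert p, lift φ (SignType.sign L) x ≠ 0 →
        LargeStabiliser (Γ := SG p) (nodal (Adj p) (lift φ (SignType.sign L)) x)
          (2 * √p / |L|)) ∧
    (∀ (Z V Γ : Type) [MeasurableSpace Z] [Countable V] [Group Γ] [Countable Γ] [MulAction Γ Z]
      [MulAction Γ V] (μ : Measure Z), (∀ g : Γ, MeasurePreserving (fun z : Z => g • z) μ μ) →
      ∀ (a : V → V → ℝ≥0) (N : ℝ), IsKernel Γ a N →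
      ∀ F : Set (Z × V), IsFundamental Γ F →
      ∀ (φ : Z × V → ℝ) (L : ℝ), IsEigenfunction Γ μ a F φ L → N < L →
      ∀ D : Set (Z × V), IsNodal Γ μ a φ D → LargeStabiliser (Γ := Γ) D (N / L)) := by
  refine ⟨?_, ?_⟩
  · intro p _ φ L hφ hL x hx
    obtain ⟨hc, hinv, hL2, hH⟩ := hφ
    set c : ℝ := lift φ (SignType.sign L) x with hcdef
    have h1 : ∀ y : ℍ × Vert p, lift (fun z => c * φ z) (SignType.sign L) y =
        c * lift φ (SignType.sign L) y := by
      intro y
      unfold lift
      ring
    have h2 : lift (p := p) (fun z => c * φ z) (SignType.sign L) =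
        fun y => lift φ (SignType.sign L) x * lift φ (SignType.sign L) y := funext h1
    have h3 := hecke_main (p := p) (φ := fun z => c * φ z) (L := L) (continuous_const.mul hc)
      (fun γ z => by rw [hinv]) ?_ ?_ hL x ?_
    · rw [h2] at h3
      exact h3
    · have e : ∀ z, ENNReal.ofReal ((c * φ z) ^ 2) =
          ENNReal.ofReal (c ^ 2) * ENNReal.ofReal (φ z ^ 2) := by
        intro z
        rw [mul_pow, ENNReal.ofReal_mul (sq_nonneg _)]
      simp_rw [e]
      rw [lintegral_const_mul _ ((hc.measurable.pow_const 2).ennreal_ofReal)]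
      exact ENNReal.mul_lt_top ENNReal.ofReal_lt_top hL2
    · intro z
      have := hH z
      unfold hecke at this ⊢
      rw [← Finset.mul_sum, ← mul_add, this]
      ring
    · rw [h1]
      exact mul_self_pos.mpr hx
  · intro Z V Γ _ _ _ _ _ _ μ hμ a N ha F hF φ L hφ hNL D hD
    obtain ⟨C, hC⟩ := ha.bound
    obtain ⟨w, hw0, hw⟩ := ha.super
    exact general hμ a ha.finite ha.symm ha.inv C hC w hw0 N hw F hF.meas hF.cover hF.finite φ
      hφ.meas hφ.inv hφ.sq L hNL hφ.eigen D hD.meas hD.pos hD.closed hD.translate hD.positive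

end Pool.Agent.Results.MP_fa98d2_nt.NodalStabilisersAtP
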