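import Mathlib
import Pool.Agent.Q164.RM.Sgn2

/-!
# Several cusp forms on `PGL(2)` with large or nontempered Hecke eigenvalues of prescribed signs

Let `π_i`, `i ∈ ι`, be `m = |ι|` unitary cuspidal automorphic representations of `PGL_2` over the number field `K`,
unramified outside the finite set `S`; for `K = ℚ` and `S` empty they come from the spherical cusp forms of the problem
(the Maass cusp forms for `SL_2(ℤ)`), `n = 2`. Let `λ_i(v)` be the real Hecke eigenvalue, and let `s_i = ± 1` be
arbitrary signs. The Ramanujan conjecture says `|λ_i(v)| ≤ 2`; a form that violates it at `v` has `|λ_i(v)| > 2`. Nothing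
is known on the joint behaviour of the signs of the violations. Here it is shown that for forms whose lifts are
pairwise inequivalent the upper Dirichlet density of the places where all of them violate the conjecture with the
prescribed signs decays quadratically in the number `m` of the forms:

* *Nontempered places.* The places where every `π_i` is nontempered and `λ_i(v)` has the sign `s_i` have upper density
  at most `1 / (44 m² + 10 m + 1)`. (Without the signs `1 / (34 m + 1)` is known from `MP_8410ab_nt`, and for one form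
  `1 / 35`, Kim and Shahidi.)
* *Large eigenvalues.* For every `c` with `c² ≥ c + 1` (`c` at least the golden ratio) the places where
  `s_i λ_i(v) ≥ c` for all `i` have upper density at most `1 / k(m, c)`, with
  `k(m, c) = 1 + m (c² + (c² - 1)² + (c³ - 2 c)² + (c⁴ - 3 c² + 1)²) + m (m - 1) (c⁴ / 2 + c² (c² - 1)²)`; the
  nontempered places are the case `c = 2`.
* *The law of large numbers.* For `γ > 0` the places where at least `(1/14 + γ) m` of the forms are nontempered with
  the prescribed sign have upper density at most `1 / (1 + 19208 γ² m / 421)`, hence `O(1 / (γ² m))`.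

The structure `PGL2Family` lists what is used: the local components are unitary with trivial central character; the
lifts `Sym^a π_i`, `1 ≤ a ≤ 4` (Gelbart-Jacquet, Kim-Shahidi, Kim), `π_i ⊠ π_j` (Ramakrishnan) and `π_i ⊠ Sym^2 π_j`
(Kim-Shahidi), `i ≠ j`, are cuspidal and pairwise inequivalent, so that their `L`-functions and Rankin-Selberg
`L`-functions are continuous and not zero at `s = 1` apart from the simple pole of `Π × Π`
(Jacquet-Piatetski-Shapiro-Shalika, Shahidi); `|α_{i,v}| ≤ q_v^{7/64}` (Kim-Sarnak, Blomer-Brumley); and absolute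
convergence for `Re s > 1` (Jacquet-Shalika).

The proof. The functions `1`, `U_a(λ_i)`, `a ≤ 4`, `λ_i λ_j`, `i < j`, and `λ_i (λ_j² - 1)`, `i ≠ j`, of `v` are
orthonormal with respect to the Dirichlet density, with the Chebyshev polynomials `U_a`. The function
`F = 1 + ∑ s_i^a U_a(c) U_a(λ_i) + ∑_{i < j} c² s_i s_j λ_i λ_j + ∑_{i ≠ j} c (c² - 1) s_i λ_i (λ_j² - 1)` has the mean
square `k(m, c)` and is at least `k(m, c)` where `s_i λ_i ≥ c` for all `i`. For the law of large numbers one takes
`1 + t ∑ ((3 λ_i² + 2 s_i λ_i - 2)² - 14)`, since `3 x² + 2 x - 2 ≥ 14` for `x ≥ 2`.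
-/

set_option autoImplicit false

namespace Pool.Agent.Results.MP_fa98d2_nt.PrescribedSigns

open Filter Topology NumberField IsDedekindDomain
open Pool.Agent.TH861.GL3 Pool.Agent.Q251.GN Pool.Agent.Q164.RM

/-- **Violations of the Ramanujan conjecture with prescribed signs by several forms.** -/
theorem result {K : Type*} [Field K] [NumberField K] {S : Finset (HeightOneSpectrum (𝓞 K))}
    {ι : Type*} [Fintype ι] [DecidableEq ι] [Nonempty ι] {α : ι → PL S → Fin 2 → ℂ} (h : PGL2Family α)
    (s : ι → ℝ) (hs : ∀ i, s i = 1 ∨ s i = -1) {ε : ℝ} (hε : 0 < ε) :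
    -- all forms are nontempered, with the prescribed signs of the eigenvalues
    (∀ᶠ σ : ℝ in 𝓝[>] 1, wt {v : PL S | ∀ i, v ∈ SignViolates α i (s i)} σ ≤
      (1 / (44 * (Fintype.card ι : ℝ) ^ 2 + 10 * (Fintype.card ι : ℝ) + 1) + ε) *
        wt (Set.univ : Set (PL S)) σ) ∧
    -- all eigenvalues are large, with the prescribed signs
    (∀ c : ℝ, 0 < c → c + 1 ≤ c ^ 2 → ∀ᶠ σ : ℝ in 𝓝[>] 1,
      wt {v : PL S | ∀ i, c ≤ s i * ev α i v} σ ≤
        (1 / (1 + (Fintype.card ι : ℝ) *
              (c ^ 2 + (c ^ 2 - 1) ^ 2 + (c ^ 3 - 2 * c) ^ 2 + (c ^ 4 - 3 * c ^ 2 + 1) ^ 2) +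
            (Fintype.card ι : ℝ) * ((Fintype.card ι : ℝ) - 1) * (c ^ 4 / 2 + c ^ 2 * (c ^ 2 - 1) ^ 2)) + ε) *
          wt (Set.univ : Set (PL S)) σ) ∧
    -- the law of large numbers
    (∀ γ : ℝ, 0 < γ → ∀ᶠ σ : ℝ in 𝓝[>] 1,
      wt {v : PL S | (1 / 14 + γ) * (Fintype.card ι : ℝ) ≤ signNum α s v} σ ≤
        (1 / (1 + 19208 * γ ^ 2 * (Fintype.card ι : ℝ) / 421) + ε) * wt (Set.univ : Set (PL S)) σ) :=
  ⟨signs_nontempered h s hs hε, fun _c hc0 hc => signs h s hs hc0 hc hε, fun _γ hγ => signs_lln h s hs hγ hε⟩

end Pool.Agent.Results.MP_fa98d2_nt.PrescribedSigns
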